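import Pool.Agent.helper37.MW.Spec

set_option autoImplicit false

namespace Pool.Agent.helper37.MW

open Finset Pool.Agent.NK

theorem CHW_two (C : Finset (ℕ × ℕ)) (k : ℕ) (hC : IsCh C) (hk : ∀ c ∈ C, c.1 + c.2 ≤ k) (c : ℕ × ℕ)
    (hc : c ∈ C) : c.1 + c.2 + 2 * #{l ∈ C.image Prod.fst | c.1 < l} ≤ k := by
  rcases (C.filter (fun e => c.1 < e.1)).eq_empty_or_nonempty with hA | hA
  · have h0 : #{l ∈ C.image Prod.fst | c.1 < l} = 0 := by
      rw [card_eq_zero, filter_eq_empty_iff]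
      intro l hl hcl
      obtain ⟨e, he, rfl⟩ := mem_image.1 hl
      have : e ∈ C.filter (fun e => c.1 < e.1) := mem_filter.2 ⟨he, hcl⟩
      rw [hA] at this
      exact absurd this (notMem_empty _)
    rw [h0]
    simpa using hk c hc
  · obtain ⟨E, hE, hmax⟩ := (C.filter (fun e => c.1 < e.1)).exists_max_image Prod.fst hA
    obtain ⟨hEC, hcE⟩ := mem_filter.1 hE
    have h1 : #{l ∈ C.image Prod.fst | c.1 < l} ≤ E.1 - c.1 := by
      have hsub : (C.image Prod.fst).filter (fun l => c.1 < l) ⊆ Ioc c.1 E.1 := by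
        intro l hl
        obtain ⟨hl1, hl2⟩ := mem_filter.1 hl
        obtain ⟨e, he, rfl⟩ := mem_image.1 hl1
        exact mem_Ioc.2 ⟨hl2, hmax e (mem_filter.2 ⟨he, hl2⟩)⟩
      have := card_le_card hsub
      rwa [Nat.card_Ioc] at this
    have h2 : #{l ∈ C.image Prod.fst | c.1 < l} ≤ E.2 - c.2 := by
      have hsub : (C.image Prod.fst).filter (fun l => c.1 < l) ⊆ (C.filter (fun e => c.1 < e.1)).image Prod.fst := by
        intro l hl
        obtain ⟨hl1, hl2⟩ := mem_filter.1 hl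
        obtain ⟨e, he, rfl⟩ := mem_image.1 hl1
        exact mem_image.2 ⟨e, mem_filter.2 ⟨he, hl2⟩, rfl⟩
      have hinj : Set.InjOn Prod.snd ((C.filter (fun e => c.1 < e.1) : Finset (ℕ × ℕ)) : Set (ℕ × ℕ)) := by
        intro e he e' he' hee
        by_contra hne
        have he1 := (mem_filter.1 (mem_coe.1 he)).1
        have he2 := (mem_filter.1 (mem_coe.1 he')).1
        rcases hC e he1 e' he2 hne with h | h <;> omega
      have hsnd : (C.filter (fun e => c.1 < e.1)).image Prod.snd ⊆ Ioc c.2 E.2 := by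
        intro l hl
        obtain ⟨e, he, rfl⟩ := mem_image.1 hl
        obtain ⟨he1, he2⟩ := mem_filter.1 he
        have hce : c ≠ e := by
          rintro rfl
          exact lt_irrefl _ he2
        have hle := hmax e he
        rw [mem_Ioc]
        constructor
        · rcases hC c hc e he1 hce with h | h
          · exact h.2
          · omega
        · by_cases heE : e = E
          · rw [heE]
          · rcases hC e he1 E hEC heE with h | h
            · exact h.2.le
            · omega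
      have c1 := card_le_card hsub
      have c2 : #((C.filter (fun e => c.1 < e.1)).image Prod.fst) ≤ #(C.filter (fun e => c.1 < e.1)) := card_image_le
      have c3 : #((C.filter (fun e => c.1 < e.1)).image Prod.snd) = #(C.filter (fun e => c.1 < e.1)) :=
        card_image_of_injOn hinj
      have c4 := card_le_card hsnd
      rw [Nat.card_Ioc] at c4
      omega
    have h3 := hk E hEC
    have hcE2 : c.2 < E.2 := by
      have hne : c ≠ E := by
        rintro rfl
        exact lt_irrefl _ hcE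
      rcases hC c hc E hEC hne with h | h
      · exact h.2
      · omega
    omega

theorem CHW (h1 : GWS_stmt) (h2 : Pool.Agent.NM.BIN_stmt) : CHW_stmt := by
  intro p q k C hp hpq hkq hρ1 hρ2 hR hC hch hcard
  obtain ⟨ρ, hρ⟩ : ∃ ρ : ℝ, ρ = (k : ℝ) / ((p : ℝ) + q) := ⟨_, rfl⟩
  rw [← hρ] at hρ1 hρ2
  set C' : Finset (ℕ × ℕ) := C.filter (fun c => c.1 ≤ p) with hC'
  have hsubC : C' ⊆ C := filter_subset _ _
  have hch' : IsCh C' := fun c hc d hd hne => hch c (hsubC hc) d (hsubC hd) hne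
  have hk' : ∀ c ∈ C', c.1 + c.2 ≤ k := fun c hc => (hC c (hsubC hc)).2.2
  have hinj : Set.InjOn Prod.fst (C' : Set (ℕ × ℕ)) := by
    intro e he e' he' hee
    by_contra hne
    rcases hch' e (mem_coe.1 he) e' (mem_coe.1 he') hne with h | h <;> omega
  have hsum : ∑ c ∈ C, p.choose c.1 * q.choose c.2 = ∑ c ∈ C', p.choose c.1 * q.choose c.2 := by
    symm
    apply sum_subset hsubC
    intro c hc hnc
    have : p < c.1 := by
      by_contra h
      exact hnc (mem_filter.2 ⟨hc, by omega⟩)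
    rw [Nat.choose_eq_zero_of_lt this, zero_mul]
  have hS := h1 p (C'.image Prod.fst) ρ hp hρ1 hρ2 (by rwa [card_image_of_injOn hinj]) (by
    intro i hi
    obtain ⟨c, hc, rfl⟩ := mem_image.1 hi
    exact ⟨(hC c (hsubC hc)).1, (mem_filter.1 hc).2⟩)
  rw [sum_image hinj] at hS
  have hn0 : (0 : ℝ) ≤ ((p + q).choose k : ℝ) := Nat.cast_nonneg _
  have hterm : ∀ c ∈ C', (1 - (p : ℝ) ^ 2 / ((p : ℝ) + q)) * ((p.choose c.1 : ℝ) * (q.choose c.2 : ℝ)) ≤
      (mu p c.1 ρ * (0.52 : ℝ) ^ (2 * #{l ∈ C'.image Prod.fst | c.1 < l})) * ((p + q).choose k : ℝ) := by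
    intro c hc
    have hcp : c.1 ≤ p := (mem_filter.1 hc).2
    have htwo := CHW_two C' k hch' hk' c hc
    have hck := hk' c hc
    have hb := h2 p q k c.1 (k - c.1 - c.2) 0.52 hcp (by omega) hkq hpq (by norm_num) hR
    have e1 : k - c.1 - (k - c.1 - c.2) = c.2 := by omega
    rw [e1, ← hρ] at hb
    have hpow : (0.52 : ℝ) ^ (k - c.1 - c.2) ≤ (0.52 : ℝ) ^ (2 * #{l ∈ C'.image Prod.fst | c.1 < l}) :=
      pow_le_pow_of_le_one (by norm_num) (by norm_num) (by omega)
    have hρ0 : 0 ≤ ρ := by linarith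
    have h1ρ : 0 ≤ 1 - ρ := by linarith
    have hX : 0 ≤ ρ ^ c.1 * (1 - ρ) ^ (p - c.1) := by positivity
    have hb2 : (1 - (p : ℝ) ^ 2 / ((p : ℝ) + q)) * (q.choose c.2 : ℝ) ≤
        ρ ^ c.1 * (1 - ρ) ^ (p - c.1) * (0.52 : ℝ) ^ (2 * #{l ∈ C'.image Prod.fst | c.1 < l}) *
          ((p + q).choose k : ℝ) := by
      refine hb.trans ?_
      exact mul_le_mul_of_nonneg_right (mul_le_mul_of_nonneg_left hpow hX) hn0
    have hcc : (0 : ℝ) ≤ (p.choose c.1 : ℝ) := Nat.cast_nonneg _
    have := mul_le_mul_of_nonneg_left hb2 hcc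
    calc (1 - (p : ℝ) ^ 2 / ((p : ℝ) + q)) * ((p.choose c.1 : ℝ) * (q.choose c.2 : ℝ))
        = (p.choose c.1 : ℝ) * ((1 - (p : ℝ) ^ 2 / ((p : ℝ) + q)) * (q.choose c.2 : ℝ)) := by ring
      _ ≤ _ := this
      _ = _ := by unfold mu; ring
  rw [hsum]
  push_cast
  rw [mul_sum]
  refine (sum_le_sum hterm).trans ?_
  rw [← sum_mul]
  exact mul_le_mul_of_nonneg_right hS hn0

end Pool.Agent.helper37.MW
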